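import Pool.Agent.W242.PR.Cj

/-!
# The numbers `1 / (π - s)` and one-dimensional periods
-/

set_option autoImplicit false

namespace Pool.Agent.Results.MP_725b61_nt.ReciprocalOfPi

open Polynomial MeasureTheory Module Finset

/-- A set of real numbers described by finitely many polynomial equalities and inequalities with
rational coefficients, combined in any way: whether `x` is in the set depends only on the signs
at `x` of finitely many polynomials with rational coefficients. -/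
def Described (S : Set ℝ) : Prop :=
  ∃ F : Finset ℚ[X], ∀ x y : ℝ,
    (∀ p ∈ F, SignType.sign (aeval x p) = SignType.sign (aeval y p)) → x ∈ S → y ∈ S

/-- A real one-dimensional period: an absolutely convergent integral of a rational function of one
variable, with rational coefficients, over such a set. -/
def RealPeriodOne (y : ℝ) : Prop :=
  ∃ (P Q : ℚ[X]) (S : Set ℝ), Q ≠ 0 ∧ Described S ∧
    IntegrableOn (fun x : ℝ => aeval x P / aeval x Q) S ∧
    (∫ x in S, aeval x P / aeval x Q) = y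

/-- a one-dimensional period: real and imaginary part are real one-dimensional periods -/
def PeriodOne (z : ℂ) : Prop := RealPeriodOne z.re ∧ RealPeriodOne z.im

/-- linear combinations, with algebraic coefficients, of `1` and of logarithms of algebraic
numbers -/
noncomputable def LogForms : Submodule (algebraicClosure ℚ ℂ) ℂ :=
  Submodule.span (algebraicClosure ℚ ℂ) ({1} ∪ {z : ℂ | IsAlgebraic ℚ (Complex.exp z)})

/-- the numbers `t` and `1 / (t - s)`, `s` algebraic -/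
noncomputable def Family (t : ℂ) : Option (algebraicClosure ℚ ℂ) → ℂ
  | none => t
  | some s => 1 / (t - (s : ℂ))

/-- the space spanned by `c, c π, ..., c π ^ n` -/
noncomputable def Powers (c : ℂ) (n : ℕ) : Submodule (algebraicClosure ℚ ℂ) ℂ :=
  Submodule.span (algebraicClosure ℚ ℂ) {z : ℂ | ∃ j ≤ n, z = c * (Real.pi : ℂ) ^ j}

open Classical in
theorem result :
    -- the sums of the problem with all dimensions equal to one
    (∀ (k : ℕ) (m : Fin k → ℕ) (p : ∀ j : Fin k, Fin (m j) → MvPolynomial (Fin 1) ℚ)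
      (P Q : Fin k → MvPolynomial (Fin 1) ℚ),
      (∀ j : Fin k, IntegrableOn
        (fun y : Fin 1 → ℝ => MvPolynomial.aeval y (P j) / MvPolynomial.aeval y (Q j))
        {y : Fin 1 → ℝ | ∀ i, 0 ≤ MvPolynomial.aeval y (p j i)}) →
      ((∑ j : Fin k, ∫ y in {y : Fin 1 → ℝ | ∀ i, 0 ≤ MvPolynomial.aeval y (p j i)},
        MvPolynomial.aeval y (P j) / MvPolynomial.aeval y (Q j) : ℝ) : ℂ) ∈ LogForms) ∧
    -- one-dimensional periods are in `LogForms`
    (∀ z : ℂ, PeriodOne z → z ∈ LogForms) ∧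
    -- at most one algebraic `s`
    (∀ s r : ℂ, IsAlgebraic ℚ s → IsAlgebraic ℚ r →
      1 / ((Real.pi : ℂ) - s) ∈ LogForms → 1 / ((Real.pi : ℂ) - r) ∈ LogForms → s = r) ∧
    -- no algebraic `s` that is not real
    (∀ s : ℂ, IsAlgebraic ℚ s → s.im ≠ 0 → 1 / ((Real.pi : ℂ) - s) ∉ LogForms ∧
      ∀ a b : ℂ, IsAlgebraic ℚ a → IsAlgebraic ℚ b → b ≠ 0 →
        Transcendental ℚ (Complex.exp (a + b / ((Real.pi : ℂ) - s)))) ∧
    -- powers of `π`
    (∀ d : ℤ, d ≠ 0 →
      {k : ℤ | (Real.pi : ℂ) ^ k ∈ LogForms ∧ (Real.pi : ℂ) ^ (k + d) ∈ LogForms}.encard ≤ 2) ∧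
    (1 / (Real.pi : ℂ) ∈ LogForms →
      1 / (Real.pi : ℂ) ^ 2 ∉ LogForms ∧ (Real.pi : ℂ) ^ 2 ∉ LogForms) ∧
    (∀ N : ℕ,
      ((Icc (-(N : ℤ)) N).filter (fun k : ℤ => (Real.pi : ℂ) ^ k ∈ LogForms)).card *
      (((Icc (-(N : ℤ)) N).filter (fun k : ℤ => (Real.pi : ℂ) ^ k ∈ LogForms)).card - 1) ≤
        8 * N) ∧
    -- polynomials in `π`, up to a factor
    (∀ (n : ℕ) (c : ℂ), c ≠ 0 →
      finrank (algebraicClosure ℚ ℂ)
        (Powers c n ⊓ LogForms : Submodule (algebraicClosure ℚ ℂ) ℂ) ^ 2 ≤ 4 * n + 1) ∧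
    -- any transcendental number (for example `e`, and Euler's constant unless it is algebraic)
    (∀ t : ℂ, Transcendental ℚ t →
      {s : Option (algebraicClosure ℚ ℂ) | Family t s ∈ LogForms}.encard ≤ 2) ∧
    -- real transcendental numbers
    (∀ (t : ℝ) (s : ℂ), Transcendental ℚ (t : ℂ) → IsAlgebraic ℚ s → s.im ≠ 0 →
      ¬ ((t : ℂ) ∈ LogForms ∧ 1 / ((t : ℂ) - s) ∈ LogForms)) := by
  have hpi := Pool.Agent.W242.GG.piC_tr
  have hpiL : (Real.pi : ℂ) ∈ LogForms := Pool.Agent.W242.GG.pi_Lt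
  have h1L : (1 : ℂ) ∈ LogForms := Pool.Agent.H301R2.SSE.Lt_one
  have hpi0 : (Real.pi : ℂ) ≠ 0 := by exact_mod_cast Real.pi_ne_zero
  have hnon : ∀ s : ℂ, IsAlgebraic ℚ s → s.im ≠ 0 → 1 / ((Real.pi : ℂ) - s) ∉ LogForms :=
    fun s hs him h => Pool.Agent.W242.PR.real_two hpi hs him hpiL h
  have hdiff : ∀ d : ℤ, d ≠ 0 →
      {k : ℤ | (Real.pi : ℂ) ^ k ∈ LogForms ∧ (Real.pi : ℂ) ^ (k + d) ∈ LogForms}.encard ≤ 2 :=
    fun d hd => Pool.Agent.W242.PR.zpow_diff hpi hd
  refine ⟨?_, fun z hz => Pool.Agent.W242.PR.period_Lt hz, ?_, ?_, hdiff, ?_, ?_, ?_, ?_, ?_⟩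
  · intro k m p P Q h
    push_cast
    refine LogForms.sum_mem (fun j _ => ?_)
    exact Pool.Agent.W242.PR.real_Lt (Pool.Agent.W242.PR.closed_mem (P j) (Q j) (m j) (p j) (h j))
  · intro s r hs hr h1 h2
    exact Pool.Agent.W242.PR.mob_one hpi hpiL hs hr h1 h2
  · intro s hs him
    refine ⟨hnon s hs him, fun a b ha hb hb0 hex => hnon s hs him ?_⟩
    have h1 : a + b / ((Real.pi : ℂ) - s) ∈ LogForms := Pool.Agent.H301R2.SSE.Lt_log hex
    have h2 : b / ((Real.pi : ℂ) - s) ∈ LogForms := by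
      have := LogForms.sub_mem h1 (Pool.Agent.H301R2.SSE.Lt_alg ha)
      rwa [add_sub_cancel_left] at this
    have h3 := Pool.Agent.H301R2.SSE.Lt_mul hb.inv h2
    have e : b⁻¹ * (b / ((Real.pi : ℂ) - s)) = 1 / ((Real.pi : ℂ) - s) := by
      rw [← mul_div_assoc, inv_mul_cancel₀ hb0]
    rw [e] at h3
    exact h3
  · intro hinv
    have z0 : (Real.pi : ℂ) ^ (0 : ℤ) ∈ LogForms := by rw [zpow_zero]; exact h1L
    have z1 : (Real.pi : ℂ) ^ (1 : ℤ) ∈ LogForms := by rw [zpow_one]; exact hpiL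
    have zm : (Real.pi : ℂ) ^ (-1 : ℤ) ∈ LogForms := by
      rw [zpow_neg_one, ← one_div]; exact hinv
    constructor
    · intro h
      have zm2 : (Real.pi : ℂ) ^ (-2 : ℤ) ∈ LogForms := by
        have e : (Real.pi : ℂ) ^ (-2 : ℤ) = 1 / (Real.pi : ℂ) ^ 2 := by
          rw [zpow_neg, one_div]; norm_cast
        rw [e]; exact h
      exact Pool.Agent.W242.PR.false_of_encard (hdiff 1 one_ne_zero) (a := -2) (b := -1) (c := 0)
        (by norm_num) (by norm_num) (by norm_num) ⟨zm2, by simpa using zm⟩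
        ⟨zm, by simpa using z0⟩ ⟨z0, by simpa using z1⟩
    · intro h
      have z2 : (Real.pi : ℂ) ^ (2 : ℤ) ∈ LogForms := by
        have e : (Real.pi : ℂ) ^ (2 : ℤ) = (Real.pi : ℂ) ^ 2 := by norm_cast
        rw [e]; exact h
      exact Pool.Agent.W242.PR.false_of_encard (hdiff 1 one_ne_zero) (a := -1) (b := 0) (c := 1)
        (by norm_num) (by norm_num) (by norm_num) ⟨zm, by simpa using z0⟩
        ⟨z0, by simpa using z1⟩ ⟨z1, by simpa using z2⟩
  · intro N
    have := Pool.Agent.W242.PR.zpow_Icc hpi N (fun k : ℤ => (Real.pi : ℂ) ^ k ∈ LogForms)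
      (fun k hk => hk)
    convert this
  · intro n c hc
    rw [sq]
    exact Pool.Agent.W242.GG.powSp_sq hpi hc n _ inf_le_right inf_le_left
  · intro t ht
    have h := Pool.Agent.W242.PR.mob_two ht
    have e : {s : Option (algebraicClosure ℚ ℂ) | Family t s ∈ LogForms} =
        {o : Option Pool.Agent.H301R2.SSE.QB |
          Pool.Agent.W242.PR.mob t o ∈ Pool.Agent.H301R2.SSE.Lt} := by
      ext o
      rcases o with _ | o <;> rfl
    rw [e]; exact h
  · rintro t s ht hs him ⟨h1, h2⟩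
    exact Pool.Agent.W242.PR.real_two ht hs him h1 h2

end Pool.Agent.Results.MP_725b61_nt.ReciprocalOfPi
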